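import Pool.Agent.R470.Keller.Tz
import Pool.Agent.Y235.JC.P6

/-!
# The trapezoid conjecture and covers by complete intersections

Let `F, G` be a pair of polynomials as in the trapezoid conjecture (conditions 1, 4 and 5) and let `W`
be the map `(F, G)` of the plane, or any composite `L ∘ (F, G) ∘ H` of it with polynomial maps `L`, `H`
whose Jacobian determinants are nonzero constants. Suppose that rational functions `z_j` of `x, y`
satisfy the equations `Φ_i(W_0; W_1, z) = 0` of a family of complete intersection curves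
`Φ_i(u; V, Z) = 0` depending on the parameter `u`, such that the general curve is smooth and the part at
infinity (in a weighted projective space) is reduced and does not depend on `u`. If `W` and the `z_j`
generate the field `ℂ(x, y)`, or some `z_j` does not lie in `ℂ(W)`, then `[F, G] = 0`.

The theorem on plane Keller maps from which this is deduced is in the starting library
(`Pool.Agent.Y235.JC.P6`, not handed in before), with conditions on ideals in place of the geometric
conditions; the geometric form (by the Nullstellensatz) and the composites are new.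
-/

set_option autoImplicit false

open MvPolynomial

namespace Pool.Agent.Results.MP_2d59ee_ag.CompleteIntersections

/-- Polynomials in two variables with complex coefficients. -/
abbrev P2 : Type := MvPolynomial (Fin 2) ℂ

/-- The field of rational functions `ℂ(x, y)`. -/
abbrev K2 : Type := FractionRing P2

/-- The polynomial map `p ∘ q` of the plane (first `q`, then `p`). -/
noncomputable def comp (p q : Fin 2 → P2) : Fin 2 → P2 := fun i => aeval q (p i)

/-- The Jacobian determinant of the polynomial map `p` is a nonzero constant. -/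
def Keller (p : Fin 2 → P2) : Prop :=
  ∃ c : ℂ, c ≠ 0 ∧ pderiv 0 (p 0) * pderiv 1 (p 1) - pderiv 1 (p 0) * pderiv 0 (p 1) = C c

/-- The polynomial `Φ(u; V, Z)` in the variables `V = X none` and `Z_j = X (some j)`, for the value `u`
of the parameter. -/
noncomputable def at_param {r : ℕ} (u : ℂ) (Φ : MvPolynomial (Option (Fin r)) (Polynomial ℂ)) :
    MvPolynomial (Option (Fin r)) ℂ :=
  MvPolynomial.map (Polynomial.evalRingHom u) Φ

/-- A family of curves `Φ_0(u; V, Z) = ⋯ = Φ_{r-1}(u; V, Z) = 0` in the space with the `r + 1`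
coordinates `V = X none`, `Z_j = X (some j)`, which depends on a parameter `u`, and which is smooth for
general `u` and has a reduced part at infinity not depending on `u`. -/
structure Family (r : ℕ) where
  /-- weights of the coordinates -/
  w : Option (Fin r) → ℕ
  w_pos : ∀ o, 0 < w o
  /-- the equations -/
  Φ : Fin r → MvPolynomial (Option (Fin r)) (Polynomial ℂ)
  /-- their weighted degrees -/
  d : Fin r → ℕ
  /-- their top forms, up to factors depending on `u` only -/
  top : Fin r → MvPolynomial (Option (Fin r)) ℂ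
  /-- the factors -/
  c : Fin r → Polynomial ℂ
  c_ne : ∀ i, c i ≠ 0
  homogeneous : ∀ i, IsWeightedHomogeneous w (top i) (d i)
  lower : ∀ i, ∀ m ∈ (Φ i - C (c i) * MvPolynomial.map Polynomial.C (top i)).support,
    Finsupp.weight w m < d i
  /-- the hyperplane `V = 0` does not meet the part at infinity -/
  finite : ∀ p : Option (Fin r) → ℂ, (∀ i, eval p (top i) = 0) → p none = 0 → p = 0
  /-- the part at infinity is reduced -/
  reduced : ∀ p : Option (Fin r) → ℂ, (∀ i, eval p (top i) = 0) →
    (Matrix.of fun i j => eval p (pderiv (some j) (top i))).det = 0 → p = 0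
  /-- the general curve is smooth -/
  smooth : ∃ s : Polynomial ℂ, s ≠ 0 ∧ ∀ (u : ℂ) (p : Option (Fin r) → ℂ), s.eval u ≠ 0 →
    (∀ i, eval p (at_param u (Φ i)) = 0) →
      ∃ e : Fin r → Option (Fin r),
        (Matrix.of fun i j => eval p (pderiv (e j) (at_param u (Φ i)))).det ≠ 0

/-- The value `Φ(u; v, z)` for elements `u, v, z_j` of a field. -/
noncomputable def value {r : ℕ} (Φ : MvPolynomial (Option (Fin r)) (Polynomial ℂ)) (u v : K2)
    (z : Fin r → K2) : K2 :=
  eval₂ (Polynomial.eval₂RingHom (algebraMap ℂ K2) u) (fun o => o.elim v z) Φ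

theorem nullst {τ : Type} [Finite τ] (S : Set (MvPolynomial τ ℂ)) (f : MvPolynomial τ ℂ)
    (h : ∀ p : τ → ℂ, (∀ g ∈ S, eval p g = 0) → eval p f = 0) :
    ∃ n : ℕ, f ^ n ∈ Ideal.span S := by
  have h1 : f ∈ (Ideal.span S).radical := by
    rw [← vanishingIdeal_zeroLocus_eq_radical (K := ℂ), mem_vanishingIdeal_iff]
    intro p hp
    rw [zeroLocus_span] at hp
    have h2 := h p (fun g hg => by
      have := hp g hg
      rwa [← MvPolynomial.coe_aeval_eq_eval])
    rwa [← MvPolynomial.coe_aeval_eq_eval] at h2
  exact h1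

/-- evaluation of polynomials with coefficients depending on a parameter -/
theorem eval_option {τ : Type} (q : Option τ → ℂ) (g : MvPolynomial (Option τ) ℂ) :
    eval q g = eval (fun o => q (some o))
      (MvPolynomial.map (Polynomial.evalRingHom (q none)) (optionEquivRight ℂ τ g)) := by
  induction g using MvPolynomial.induction_on with
  | C a => simp
  | add p q hp hq => rw [map_add, map_add, map_add, map_add, hp, hq]
  | mul_X p o hp =>
    rw [map_mul, map_mul, map_mul, map_mul, hp]
    congr 1
    cases o with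
    | none => simp
    | some o => simp

/-- the Nullstellensatz with a parameter -/
theorem nullst_param {τ : Type} [Finite τ] (S : Set (MvPolynomial τ (Polynomial ℂ)))
    (f : MvPolynomial τ (Polynomial ℂ))
    (h : ∀ (u : ℂ) (p : τ → ℂ), (∀ g ∈ S, eval p (MvPolynomial.map (Polynomial.evalRingHom u) g) = 0) →
      eval p (MvPolynomial.map (Polynomial.evalRingHom u) f) = 0) :
    ∃ n : ℕ, f ^ n ∈ Ideal.span S := by
  let e := optionEquivRight ℂ τ
  obtain ⟨n, hn⟩ := nullst (e.symm '' S) (e.symm f) (by
    intro q hq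
    rw [eval_option, show optionEquivRight ℂ τ (e.symm f) = f from e.apply_symm_apply f]
    apply h
    intro g hg
    have := hq _ ⟨g, hg, rfl⟩
    rwa [eval_option, show optionEquivRight ℂ τ (e.symm g) = g from e.apply_symm_apply g] at this)
  refine ⟨n, ?_⟩
  have h1 := Ideal.mem_map_of_mem (e : MvPolynomial (Option τ) ℂ →+* MvPolynomial τ (Polynomial ℂ)) hn
  rw [Ideal.map_span, Set.image_image, map_pow] at h1
  have h2 : (fun x => (e : MvPolynomial (Option τ) ℂ →+* MvPolynomial τ (Polynomial ℂ)) (e.symm x)) ''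
      S = S := by
    have : (fun x => (e : MvPolynomial (Option τ) ℂ →+* MvPolynomial τ (Polynomial ℂ)) (e.symm x)) =
        id := by
      funext x
      exact e.apply_symm_apply x
    rw [this, Set.image_id]
  rw [h2] at h1
  convert h1 using 2
  exact (e.apply_symm_apply f).symm

/-- the family as a complete intersection in the sense of the library -/
theorem Family.exists_CI {r : ℕ} (D : Family r) :
    ∃ D' : Pool.Agent.Y235.JC.CI ℂ r, D'.Φ = D.Φ := by
  classical
  refine ⟨{ w := D.w, hw := D.w_pos, d := D.d, Φ := D.Φ, Φ0 := D.top, c := D.c, hc := D.c_ne,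
            hΦ0 := D.homogeneous, htop := ?_, h2 := ?_, h3 := ?_, h4 := ?_ }, rfl⟩
  · intro i m hm
    have := D.lower i m hm
    omega
  · intro j
    apply nullst
    intro p hp
    rw [D.finite p (fun i => hp _ ⟨some i, rfl⟩) (by
      have := hp _ ⟨none, rfl⟩
      simpa using this)]
    simp
  · apply nullst
    intro p hp
    rw [D.reduced p (fun i => hp _ ⟨some i, rfl⟩) (by
      have := hp _ ⟨none, rfl⟩
      simp only [Option.elim] at this
      rw [RingHom.map_det] at this
      exact this)]
    simp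
  · obtain ⟨s, hs, hsm⟩ := D.smooth
    obtain ⟨n, hn⟩ := nullst_param (Set.range D.Φ ∪ Set.range fun e : Fin r → Option (Fin r) =>
        Matrix.det (Matrix.of fun i j => pderiv (e j) (D.Φ i))) (C s) (by
      intro u p hp
      rw [map_C, eval_C]
      by_contra hsu
      obtain ⟨e, he⟩ := hsm u p hsu (fun i => hp _ (Or.inl ⟨i, rfl⟩))
      apply he
      have h1 := hp _ (Or.inr ⟨e, rfl⟩)
      simp only at h1
      rw [RingHom.map_det, RingHom.map_det] at h1
      rw [← h1]
      congr 1
      ext i j
      simp only [Matrix.of_apply, RingHom.mapMatrix_apply, Matrix.map_apply, at_param]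
      rw [pderiv_map])
    rw [← map_pow] at hn
    exact ⟨s ^ n, pow_ne_zero _ hs, hn⟩

theorem aeval_comp (p q : Fin 2 → P2) (f : P2) : aeval (comp p q) f = aeval q (aeval p f) := by
  have h1 : (aeval (comp p q) : P2 →ₐ[ℂ] P2) = (aeval q : P2 →ₐ[ℂ] P2).comp (aeval p) := by
    apply MvPolynomial.algHom_ext
    intro j
    rw [AlgHom.comp_apply, aeval_X, aeval_X]
    rfl
  exact congrArg (fun g => g f) h1

theorem Keller.unit {p : Fin 2 → P2} (h : Keller p) :
    IsUnit (Matrix.of fun i j => pderiv j (p i)).det := by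
  obtain ⟨c, hc, h⟩ := h
  exact Pool.Agent.R470.Keller.det_unit p hc h

theorem unit_comp {p q : Fin 2 → P2} (hp : IsUnit (Matrix.of fun i j => pderiv j (p i)).det)
    (hq : IsUnit (Matrix.of fun i j => pderiv j (q i)).det) :
    IsUnit (Matrix.of fun i j => pderiv j (comp p q i)).det := by
  have h1 : (Matrix.of fun i j => pderiv j (comp p q i)) =
      (aeval q : P2 →ₐ[ℂ] P2).toRingHom.mapMatrix (Matrix.of fun i j => pderiv j (p i)) *
      (Matrix.of fun i j => pderiv j (q i)) := by
    ext i j
    rw [Matrix.of_apply, Matrix.mul_apply, comp, Pool.Agent.H922R2.deriv_aeval]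
    rfl
  rw [h1, Matrix.det_mul, ← RingHom.map_det]
  exact (hp.map _).mul hq

/-- If `S ∘ H` has a left inverse and `H` is a Keller map then `S` has a left inverse. -/
theorem left_inv {S H G' : Fin 2 → P2} (hH : IsUnit (Matrix.of fun i j => pderiv j (H i)).det)
    (h : ∀ i, aeval (comp S H) (G' i) = X i) (i : Fin 2) : aeval S (aeval G' (H i)) = X i := by
  have hinj := Pool.Agent.H922R2.aeval_injective H hH
  have h1 : ∀ f : P2, aeval H (aeval S (aeval G' f)) = f := by
    intro f
    rw [← aeval_comp, ← aeval_comp]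
    have h2 : comp G' (comp S H) = X := by
      funext j
      exact h j
    rw [h2, aeval_X_left_apply]
  apply hinj
  rw [h1, aeval_X]

/-- Let `a, b ≥ 2` be coprime, let `a` divide `m, n > 0` and let `F, G` be complex polynomials whose
Newton polygons are the trapezoids `T_{m,n}` and `T_{bm/a,bn/a}` and whose bracket is constant. Let
`L` and `H` be polynomial maps of the plane whose Jacobian determinants are nonzero constants, and let
`W = L ∘ (F, G) ∘ H`. Let `z_j` be rational functions such that `Φ_i(W_0; W_1, z) = 0` for all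
equations `Φ_i` of a family of complete intersection curves as in `Family`. If `ℂ(W, z) = ℂ(x, y)` or
some `z_j` does not lie in `ℂ(W)`, then `[F, G] = 0`. -/
theorem result (a b m n : ℕ) (hm : 0 < m) (hn : 0 < n) (ham : a ∣ m) (han : a ∣ n)
    (hab : Nat.gcd a b = 1) (ha : 2 ≤ a) (hb : 2 ≤ b)
    (F G : MvPolynomial (Fin 2) ℂ)
    (h1 : convexHull ℝ (insert ((0:ℝ), (0:ℝ))
        ((fun d : Fin 2 →₀ ℕ => ((d 0 : ℝ), (d 1 : ℝ))) '' (↑F.support : Set (Fin 2 →₀ ℕ))))
        = {p : ℝ × ℝ | 0 ≤ p.2 ∧ p.2 ≤ (n : ℝ) ∧ 0 ≤ p.1 ∧ p.1 ≤ (m : ℝ) + (n : ℝ) - p.2})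
    (h4 : convexHull ℝ (insert ((0:ℝ), (0:ℝ))
        ((fun d : Fin 2 →₀ ℕ => ((d 0 : ℝ), (d 1 : ℝ))) '' (↑G.support : Set (Fin 2 →₀ ℕ))))
        = {p : ℝ × ℝ | 0 ≤ p.2 ∧ p.2 ≤ ((b * n / a : ℕ) : ℝ) ∧ 0 ≤ p.1 ∧
            p.1 ≤ ((b * m / a : ℕ) : ℝ) + ((b * n / a : ℕ) : ℝ) - p.2})
    (h5 : ∃ c : ℂ, pderiv 0 F * pderiv 1 G - pderiv 1 F * pderiv 0 G = C c)
    (L H : Fin 2 → P2) (hL : Keller L) (hH : Keller H)
    (W : Fin 2 → P2) (hW : W = comp L (comp ![F, G] H))
    (r : ℕ) (D : Family r) (z : Fin r → K2)
    (hz : ∀ i, value (D.Φ i) (algebraMap P2 K2 (W 0)) (algebraMap P2 K2 (W 1)) z = 0)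
    (hgen : IntermediateField.adjoin ℂ
        ({algebraMap P2 K2 (W 0), algebraMap P2 K2 (W 1)} ∪ Set.range z) = ⊤ ∨
      ∃ j, z j ∉ IntermediateField.adjoin ℂ {algebraMap P2 K2 (W 0), algebraMap P2 K2 (W 1)}) :
    pderiv 0 F * pderiv 1 G - pderiv 1 F * pderiv 0 G = 0 := by
  obtain ⟨c, hc⟩ := h5
  by_cases hc0 : c = 0
  · rw [hc, hc0, map_zero]
  exfalso
  have hng := Pool.Agent.R470.Keller.tz_not_good a b m n hm hn ham han hab ha hb F G h1 h4 hc0 hc
  have hT : IsUnit (Matrix.of fun i j => pderiv j ((![F, G] : Fin 2 → P2) i)).det :=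
    Pool.Agent.R470.Keller.det_unit ![F, G] hc0 (by simpa using hc)
  have hLu := hL.unit
  have hHu := hH.unit
  have hS : IsUnit (Matrix.of fun i j => pderiv j (comp L ![F, G] i)).det := unit_comp hLu hT
  have hW2 : W = comp (comp L ![F, G]) H := by
    rw [hW]
    funext i
    show aeval (comp ![F, G] H) (L i) = aeval H (aeval ![F, G] (L i))
    exact aeval_comp _ _ _
  have hWu : IsUnit (Matrix.det (Pool.Agent.H922R2.jac W)) := by
    rw [hW2]
    exact unit_comp hS hHu
  obtain ⟨D', hD'⟩ := D.exists_CI
  have hf : Polynomial.eval₂RingHom (algebraMap ℂ K2) (algebraMap P2 K2 (W 0)) =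
      (algebraMap P2 K2).comp (Polynomial.eval₂RingHom C (W 0)) := by
    apply Polynomial.ringHom_ext
    · intro a
      rw [RingHom.comp_apply, Polynomial.coe_eval₂RingHom, Polynomial.coe_eval₂RingHom,
        Polynomial.eval₂_C, Polynomial.eval₂_C, IsScalarTower.algebraMap_apply ℂ P2 K2]
      rfl
    · rw [RingHom.comp_apply, Polynomial.coe_eval₂RingHom, Polynomial.coe_eval₂RingHom,
        Polynomial.eval₂_X, Polynomial.eval₂_X]
  obtain ⟨h6, h7⟩ := Pool.Agent.Y235.JC.CI_field W hWu D' z (by
    intro i
    have := hz i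
    rw [value, hf] at this
    rw [hD']
    exact this)
  have hr : (Set.range fun j => algebraMap P2 K2 (W j)) =
      {algebraMap P2 K2 (W 0), algebraMap P2 K2 (W 1)} := by
    ext x
    simp only [Set.mem_range, Set.mem_insert_iff, Set.mem_singleton_iff, Fin.exists_fin_two]
    constructor
    · rintro (h | h)
      · exact Or.inl h.symm
      · exact Or.inr h.symm
    · rintro (h | h)
      · exact Or.inl h.symm
      · exact Or.inr h.symm
  rcases hgen with hgen | ⟨j, hj⟩
  · rw [← hr] at hgen
    obtain ⟨G', hG', -⟩ := h7 hgen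
    rw [hW2] at hG'
    have h8 := left_inv hHu hG'
    refine hng (Pool.Agent.R470.Keller.good_of_inv
      ⟨fun i => aeval L (aeval G' (H i)), fun i => ?_⟩)
    rw [← aeval_comp]
    exact h8 i
  · apply hj
    rw [← hr]
    exact h6 j

end Pool.Agent.Results.MP_2d59ee_ag.CompleteIntersections
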