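import Pool.Agent.R470.Keller.Tz
import Pool.Agent.H922R2.K24

/-!
# The trapezoid conjecture and symmetries of infinite order

Let `F, G` be a pair of polynomials as in the trapezoid conjecture (conditions 1, 4 and 5). Let `L` and
`H` be any polynomial maps of the plane with nonzero constant Jacobian determinants (for instance the
identity, automorphisms, or words in the map `(F, G)` itself and other such maps) and let
`W = L ∘ (F, G) ∘ H`. If `W ∘ φ = ψ ∘ W` for a polynomial automorphism `φ` of the plane of infinite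
order and some polynomial map `ψ`, then `[F, G] = 0`.

The theorem on plane Keller maps from which this is deduced is in the starting library
(`Pool.Agent.H922R2.K24`, not handed in before); the composites are new.
-/

set_option autoImplicit false

open MvPolynomial

namespace Pool.Agent.Results.MP_2d59ee_ag.InfiniteSymmetries

/-- Polynomials in two variables with complex coefficients. -/
abbrev P2 : Type := MvPolynomial (Fin 2) ℂ

/-- The polynomial map `p ∘ q` of the plane (first `q`, then `p`). -/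
noncomputable def comp (p q : Fin 2 → P2) : Fin 2 → P2 := fun i => aeval q (p i)

/-- The Jacobian determinant of the polynomial map `p` is a nonzero constant. -/
def Keller (p : Fin 2 → P2) : Prop :=
  ∃ c : ℂ, c ≠ 0 ∧ pderiv 0 (p 0) * pderiv 1 (p 1) - pderiv 1 (p 0) * pderiv 0 (p 1) = C c

theorem aeval_comp (p q : Fin 2 → P2) (f : P2) : aeval (comp p q) f = aeval q (aeval p f) := by
  have h1 : (aeval (comp p q) : P2 →ₐ[ℂ] P2) = (aeval q : P2 →ₐ[ℂ] P2).comp (aeval p) := by
    apply MvPolynomial.algHom_ext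
    intro j
    rw [AlgHom.comp_apply, aeval_X, aeval_X]
    rfl
  exact congrArg (fun g => g f) h1

theorem Keller.unit {p : Fin 2 → P2} (h : Keller p) :
    IsUnit (Matrix.of fun i j => pderiv j (p i)).det := by
  obtain ⟨c, hc, h⟩ := h
  exact Pool.Agent.R470.Keller.det_unit p hc h

theorem unit_comp {p q : Fin 2 → P2} (hp : IsUnit (Matrix.of fun i j => pderiv j (p i)).det)
    (hq : IsUnit (Matrix.of fun i j => pderiv j (q i)).det) :
    IsUnit (Matrix.of fun i j => pderiv j (comp p q i)).det := by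
  have h1 : (Matrix.of fun i j => pderiv j (comp p q i)) =
      (aeval q : P2 →ₐ[ℂ] P2).toRingHom.mapMatrix (Matrix.of fun i j => pderiv j (p i)) *
      (Matrix.of fun i j => pderiv j (q i)) := by
    ext i j
    rw [Matrix.of_apply, Matrix.mul_apply, comp, Pool.Agent.H922R2.deriv_aeval]
    rfl
  rw [h1, Matrix.det_mul, ← RingHom.map_det]
  exact (hp.map _).mul hq

/-- If `S ∘ H` has a left inverse and `H` is a Keller map then `S` has a left inverse. -/
theorem left_inv {S H G' : Fin 2 → P2} (hH : IsUnit (Matrix.of fun i j => pderiv j (H i)).det)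
    (h : ∀ i, aeval (comp S H) (G' i) = X i) (i : Fin 2) : aeval S (aeval G' (H i)) = X i := by
  have hinj := Pool.Agent.H922R2.aeval_injective H hH
  have h1 : ∀ f : P2, aeval H (aeval S (aeval G' f)) = f := by
    intro f
    rw [← aeval_comp, ← aeval_comp]
    have h2 : comp G' (comp S H) = X := by
      funext j
      exact h j
    rw [h2, aeval_X_left_apply]
  apply hinj
  rw [h1, aeval_X]

/-- Let `a, b ≥ 2` be coprime, let `a` divide `m, n > 0` and let `F, G` be complex polynomials whose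
Newton polygons are the trapezoids `T_{m,n}` and `T_{bm/a,bn/a}` and whose bracket is constant. Let
`L` and `H` be polynomial maps of the plane whose Jacobian determinants are nonzero constants and let
`W = L ∘ (F, G) ∘ H`. If there are an automorphism `φ` of the polynomial ring, of infinite order, and
polynomials `ψ 0`, `ψ 1` with `φ (W i) = (ψ i) (W)` (that is, `W ∘ φ = ψ ∘ W` as maps of the plane),
then `[F, G] = 0`. -/
theorem result (a b m n : ℕ) (hm : 0 < m) (hn : 0 < n) (ham : a ∣ m) (han : a ∣ n)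
    (hab : Nat.gcd a b = 1) (ha : 2 ≤ a) (hb : 2 ≤ b)
    (F G : MvPolynomial (Fin 2) ℂ)
    (h1 : convexHull ℝ (insert ((0:ℝ), (0:ℝ))
        ((fun d : Fin 2 →₀ ℕ => ((d 0 : ℝ), (d 1 : ℝ))) '' (↑F.support : Set (Fin 2 →₀ ℕ))))
        = {p : ℝ × ℝ | 0 ≤ p.2 ∧ p.2 ≤ (n : ℝ) ∧ 0 ≤ p.1 ∧ p.1 ≤ (m : ℝ) + (n : ℝ) - p.2})
    (h4 : convexHull ℝ (insert ((0:ℝ), (0:ℝ))
        ((fun d : Fin 2 →₀ ℕ => ((d 0 : ℝ), (d 1 : ℝ))) '' (↑G.support : Set (Fin 2 →₀ ℕ))))
        = {p : ℝ × ℝ | 0 ≤ p.2 ∧ p.2 ≤ ((b * n / a : ℕ) : ℝ) ∧ 0 ≤ p.1 ∧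
            p.1 ≤ ((b * m / a : ℕ) : ℝ) + ((b * n / a : ℕ) : ℝ) - p.2})
    (h5 : ∃ c : ℂ, pderiv 0 F * pderiv 1 G - pderiv 1 F * pderiv 0 G = C c)
    (L H : Fin 2 → P2) (hL : Keller L) (hH : Keller H)
    (φ : P2 ≃ₐ[ℂ] P2) (hφ : ∀ k : ℕ, 0 < k → φ ^ k ≠ 1) (ψ : Fin 2 → P2)
    (hsym : ∀ i, φ (comp L (comp ![F, G] H) i) = aeval (comp L (comp ![F, G] H)) (ψ i)) :
    pderiv 0 F * pderiv 1 G - pderiv 1 F * pderiv 0 G = 0 := by
  obtain ⟨c, hc⟩ := h5
  by_cases hc0 : c = 0
  · rw [hc, hc0, map_zero]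
  exfalso
  have hng := Pool.Agent.R470.Keller.tz_not_good a b m n hm hn ham han hab ha hb F G h1 h4 hc0 hc
  have hT : IsUnit (Matrix.of fun i j => pderiv j ((![F, G] : Fin 2 → P2) i)).det :=
    Pool.Agent.R470.Keller.det_unit ![F, G] hc0 (by simpa using hc)
  have hLu := hL.unit
  have hHu := hH.unit
  have hS : IsUnit (Matrix.of fun i j => pderiv j (comp L ![F, G] i)).det := unit_comp hLu hT
  have hW : comp L (comp ![F, G] H) = comp (comp L ![F, G]) H := by
    funext i
    show aeval (comp ![F, G] H) (L i) = aeval H (aeval ![F, G] (L i))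
    exact aeval_comp _ _ _
  rw [hW] at hsym
  have htop : Pool.Agent.H922R2.SS (comp (comp L ![F, G]) H) = ⊤ :=
    Pool.Agent.H922R2.main_any (unit_comp hS hHu) φ hφ fun i => by
      rw [hsym i]
      exact ⟨ψ i, rfl⟩
  have h6 : ∀ i : Fin 2, ∃ p : P2, aeval (comp (comp L ![F, G]) H) p = X i := by
    intro i
    have h7 : (X i : P2) ∈ Pool.Agent.H922R2.SS (comp (comp L ![F, G]) H) := by
      rw [htop]; trivial
    exact h7
  choose G' hG' using h6
  have h8 := left_inv hHu hG'
  refine hng (Pool.Agent.R470.Keller.good_of_inv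
    ⟨fun i => aeval L (aeval G' (H i)), fun i => ?_⟩)
  rw [← aeval_comp]
  exact h8 i

end Pool.Agent.Results.MP_2d59ee_ag.InfiniteSymmetries
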