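import Pool.Agent.R470.Keller.Tz
import Pool.Agent.H928R2.FolMain

/-!
# The trapezoid conjecture and invariant foliations

Let `F, G` be a pair of polynomials as in the trapezoid conjecture (conditions 1, 4 and 5). Let `L` and
`H` be any polynomial maps of the plane with nonzero constant Jacobian determinants (for instance the
identity, automorphisms, or words in the map `(F, G)` itself and other such maps). If the composite map
`L ∘ (F, G) ∘ H` maps the leaves of some polynomial foliation `A dx + B dy = 0` (for instance of a pencil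
of curves) into leaves of the same foliation, then `[F, G] = 0`.

The theorem on compositions of two plane Keller maps from which this is deduced is in the starting
library (`Pool.Agent.H928R2.FolMain`, not handed in before); the composites with a map `L` are new.
-/

set_option autoImplicit false

open MvPolynomial

namespace Pool.Agent.Results.MP_2d59ee_ag.InvariantFoliations

/-- Polynomials in two variables with complex coefficients. -/
abbrev P2 : Type := MvPolynomial (Fin 2) ℂ

/-- The polynomial map `p ∘ q` of the plane (first `q`, then `p`). -/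
noncomputable def comp (p q : Fin 2 → P2) : Fin 2 → P2 := fun i => aeval q (p i)

/-- The Jacobian determinant of the polynomial map `p` is a nonzero constant. -/
def Keller (p : Fin 2 → P2) : Prop :=
  ∃ c : ℂ, c ≠ 0 ∧ pderiv 0 (p 0) * pderiv 1 (p 1) - pderiv 1 (p 0) * pderiv 0 (p 1) = C c

/-- The polynomial map `T` maps the leaves of the foliation `A dx + B dy = 0` into leaves: the
pull-back of the form `A dx + B dy` by `T` is proportional to `A dx + B dy`. -/
def PreservesFoliation (T : Fin 2 → P2) (A B : P2) : Prop :=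
  (aeval T A * pderiv 0 (T 0) + aeval T B * pderiv 0 (T 1)) * B =
    (aeval T A * pderiv 1 (T 0) + aeval T B * pderiv 1 (T 1)) * A

theorem aeval_comp (p q : Fin 2 → P2) (f : P2) : aeval (comp p q) f = aeval q (aeval p f) := by
  have h1 : (aeval (comp p q) : P2 →ₐ[ℂ] P2) = (aeval q : P2 →ₐ[ℂ] P2).comp (aeval p) := by
    apply MvPolynomial.algHom_ext
    intro j
    rw [AlgHom.comp_apply, aeval_X, aeval_X]
    rfl
  exact congrArg (fun g => g f) h1

theorem Keller.unit {p : Fin 2 → P2} (h : Keller p) :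
    IsUnit (Matrix.of fun i j => pderiv j (p i)).det := by
  obtain ⟨c, hc, h⟩ := h
  exact Pool.Agent.R470.Keller.det_unit p hc h

theorem unit_comp {p q : Fin 2 → P2} (hp : IsUnit (Matrix.of fun i j => pderiv j (p i)).det)
    (hq : IsUnit (Matrix.of fun i j => pderiv j (q i)).det) :
    IsUnit (Matrix.of fun i j => pderiv j (comp p q i)).det := by
  have h1 : (Matrix.of fun i j => pderiv j (comp p q i)) =
      (aeval q : P2 →ₐ[ℂ] P2).toRingHom.mapMatrix (Matrix.of fun i j => pderiv j (p i)) *
      (Matrix.of fun i j => pderiv j (q i)) := by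
    ext i j
    rw [Matrix.of_apply, Matrix.mul_apply, comp, Pool.Agent.H922R2.deriv_aeval]
    rfl
  rw [h1, Matrix.det_mul, ← RingHom.map_det]
  exact (hp.map _).mul hq

/-- Let `a, b ≥ 2` be coprime, let `a` divide `m, n > 0` and let `F, G` be complex polynomials whose
Newton polygons are the trapezoids `T_{m,n}` and `T_{bm/a,bn/a}` and whose bracket is constant. Let
`L` and `H` be polynomial maps of the plane whose Jacobian determinants are nonzero constants. If the
map `L ∘ (F, G) ∘ H` preserves a foliation `A dx + B dy = 0`, `A` and `B` polynomials, not both zero,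
then `[F, G] = 0`. -/
theorem result (a b m n : ℕ) (hm : 0 < m) (hn : 0 < n) (ham : a ∣ m) (han : a ∣ n)
    (hab : Nat.gcd a b = 1) (ha : 2 ≤ a) (hb : 2 ≤ b)
    (F G : MvPolynomial (Fin 2) ℂ)
    (h1 : convexHull ℝ (insert ((0:ℝ), (0:ℝ))
        ((fun d : Fin 2 →₀ ℕ => ((d 0 : ℝ), (d 1 : ℝ))) '' (↑F.support : Set (Fin 2 →₀ ℕ))))
        = {p : ℝ × ℝ | 0 ≤ p.2 ∧ p.2 ≤ (n : ℝ) ∧ 0 ≤ p.1 ∧ p.1 ≤ (m : ℝ) + (n : ℝ) - p.2})
    (h4 : convexHull ℝ (insert ((0:ℝ), (0:ℝ))
        ((fun d : Fin 2 →₀ ℕ => ((d 0 : ℝ), (d 1 : ℝ))) '' (↑G.support : Set (Fin 2 →₀ ℕ))))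
        = {p : ℝ × ℝ | 0 ≤ p.2 ∧ p.2 ≤ ((b * n / a : ℕ) : ℝ) ∧ 0 ≤ p.1 ∧
            p.1 ≤ ((b * m / a : ℕ) : ℝ) + ((b * n / a : ℕ) : ℝ) - p.2})
    (h5 : ∃ c : ℂ, pderiv 0 F * pderiv 1 G - pderiv 1 F * pderiv 0 G = C c)
    (L H : Fin 2 → P2) (hL : Keller L) (hH : Keller H)
    (A B : P2) (hAB : A ≠ 0 ∨ B ≠ 0)
    (hinv : PreservesFoliation (comp L (comp ![F, G] H)) A B) :
    pderiv 0 F * pderiv 1 G - pderiv 1 F * pderiv 0 G = 0 := by
  obtain ⟨c, hc⟩ := h5
  by_cases hc0 : c = 0
  · rw [hc, hc0, map_zero]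
  exfalso
  have hng := Pool.Agent.R470.Keller.tz_not_good a b m n hm hn ham han hab ha hb F G h1 h4 hc0 hc
  have hT : IsUnit (Matrix.of fun i j => pderiv j ((![F, G] : Fin 2 → P2) i)).det :=
    Pool.Agent.R470.Keller.det_unit ![F, G] hc0 (by simpa using hc)
  have hLu := hL.unit
  have hHu := hH.unit
  have hS : IsUnit (Matrix.of fun i j => pderiv j (comp L ![F, G] i)).det := unit_comp hLu hT
  have hW : comp L (comp ![F, G] H) = comp (comp L ![F, G]) H := by
    funext i
    show aeval (comp ![F, G] H) (L i) = aeval H (aeval ![F, G] (L i))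
    exact aeval_comp _ _ _
  rw [hW] at hinv
  obtain ⟨G', hG', -⟩ := Pool.Agent.H928R2.Pen.foliation_comp (comp L ![F, G]) H hS hHu
    (comp (comp L ![F, G]) H) (fun i => rfl) A B hAB hinv
  refine hng (Pool.Agent.R470.Keller.good_of_inv ⟨fun i => aeval L (G' i), fun i => ?_⟩)
  rw [← aeval_comp]
  exact hG' i

end Pool.Agent.Results.MP_2d59ee_ag.InvariantFoliations
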