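import Pool.Agent.R470.Keller.Tz
import Pool.Agent.H928R2.TriM5

/-!
# The trapezoid conjecture and non-properness curves invariant under a vector field

Let `F, G` be a pair of polynomials as in the trapezoid conjecture (conditions 1, 4 and 5), and let the
map `(F, G)` of the plane be finite over the complement of a curve `q = 0`. If, in some system of
coordinates of the plane, the curve is invariant under a vector field
`a(x) ∂/∂x + (b(x) y + c(x)) ∂/∂y`, then `[F, G] = 0`. In particular `[F, G] = 0` if the components of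
the curve are lines `x = const` and components of curves `(r(x) y - s(x)) ^ k h₂(x) = t h₁(x)`, with any
number of values of the constant `t` and the same `k` and polynomials `r, s, h₁, h₂`; and in particular
`[F, G] = 0` if the curve lies on a curve `q₂(x) y² + q₁(x) y + q₀(x) = 0`.

The theorem on plane Keller maps from which the first statement is deduced is in the starting library
(`Pool.Agent.H928R2.TriM5`, not handed in before); the other two statements are new.
-/

set_option autoImplicit false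

open MvPolynomial

namespace Pool.Agent.Results.MP_2d59ee_ag.TriangularBranchCurves

/-- Polynomials in two variables `x`, `y` with complex coefficients. -/
abbrev P2 : Type := MvPolynomial (Fin 2) ℂ

/-- The polynomial `p(x)` in one variable as a polynomial in `x` and `y`. -/
noncomputable def inX (p : Polynomial ℂ) : P2 := Polynomial.aeval (X 0 : P2) p

/-- The curve `D = 0` is invariant under the vector field `a(x) ∂/∂x + (b(x) y + c(x)) ∂/∂y`: the
derivative of `D` is divisible by `D`. -/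
def Invariant (a b c : Polynomial ℂ) (D : P2) : Prop :=
  D ∣ inX a * pderiv 0 D + (inX b * X 1 + inX c) * pderiv 1 D

/-- The equation `r(x) y = s(x)` of the graph of the rational function `s / r`. -/
noncomputable def graph (r s : Polynomial ℂ) : P2 := inX r * X 1 - inX s

theorem pderiv_inX_zero (p : Polynomial ℂ) :
    pderiv (0 : Fin 2) (inX p) = inX (Polynomial.derivative p) := by
  unfold inX
  rw [Derivation.map_aeval, pderiv_X_self, smul_eq_mul, mul_one]

theorem pderiv_inX_one (p : Polynomial ℂ) : pderiv (1 : Fin 2) (inX p) = 0 := by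
  unfold inX
  rw [Derivation.map_aeval, pderiv_X_of_ne (by decide), smul_zero]

theorem inX_ne_zero {p : Polynomial ℂ} (hp : p ≠ 0) : inX p ≠ 0 := by
  intro h
  have h1 : Function.Injective (Polynomial.aeval (X 0 : P2) : Polynomial ℂ →ₐ[ℂ] P2) :=
    transcendental_iff_injective.1 (MvPolynomial.transcendental_X ℂ 0)
  apply hp
  apply h1
  rw [map_zero]
  exact h

theorem graph_ne_zero {r s : Polynomial ℂ} (hr : r ≠ 0) : graph r s ≠ 0 := by
  intro h
  have h1 := congrArg (pderiv (1 : Fin 2)) h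
  unfold graph at h1
  simp only [map_sub, Derivation.leibniz, pderiv_X_self, pderiv_inX_one, smul_eq_mul, mul_one,
    mul_zero, add_zero, sub_zero, map_zero] at h1
  exact inX_ne_zero hr h1

theorem curve_ne_zero (r s h₁ h₂ : Polynomial ℂ) (k : ℕ) (t : ℂ) (hr : r ≠ 0) (hh₂ : h₂ ≠ 0)
    (hk : k ≠ 0) : graph r s ^ k * inX h₂ - C t * inX h₁ ≠ 0 := by
  intro h
  have h1 := congrArg (pderiv (1 : Fin 2)) h
  have hg1 : pderiv (1 : Fin 2) (graph r s) = inX r := by
    unfold graph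
    simp only [map_sub, Derivation.leibniz, pderiv_inX_one, smul_eq_mul, pderiv_X_self, mul_zero,
      add_zero, sub_zero, mul_one]
  simp only [map_sub, Derivation.leibniz, Derivation.leibniz_pow, pderiv_inX_one, pderiv_C,
    smul_eq_mul, hg1, mul_zero, add_zero, sub_zero, zero_add, nsmul_eq_mul, map_zero] at h1
  refine mul_ne_zero (inX_ne_zero hh₂) (mul_ne_zero ?_ ?_) h1
  · exact_mod_cast hk
  · exact mul_ne_zero (pow_ne_zero _ (graph_ne_zero hr)) (inX_ne_zero hr)

/-- The derivative of `p` along the vector field `a(x) ∂/∂x + (b(x) y + c(x)) ∂/∂y`. -/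
noncomputable def along (a b c : Polynomial ℂ) (p : P2) : P2 :=
  inX a * pderiv 0 p + (inX b * X 1 + inX c) * pderiv 1 p

theorem along_mul (a b c : Polynomial ℂ) (p q : P2) :
    along a b c (p * q) = p * along a b c q + q * along a b c p := by
  unfold along
  simp only [Derivation.leibniz, smul_eq_mul]
  ring

theorem Invariant.mul {a b c : Polynomial ℂ} {p q : P2} (hp : Invariant a b c p)
    (hq : Invariant a b c q) : Invariant a b c (p * q) := by
  obtain ⟨u, hu⟩ := hp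
  obtain ⟨v, hv⟩ := hq
  refine ⟨u + v, ?_⟩
  have h := along_mul a b c p q
  unfold along at h
  rw [h, hu, hv]
  ring

theorem Invariant.prod {ι : Type} {a b c : Polynomial ℂ} (S : Finset ι) (f : ι → P2)
    (h : ∀ i ∈ S, Invariant a b c (f i)) : Invariant a b c (∏ i ∈ S, f i) := by
  classical
  induction S using Finset.induction_on with
  | empty => rw [Finset.prod_empty]; exact one_dvd _
  | insert i S hi ih =>
    rw [Finset.prod_insert hi]
    exact (h i (Finset.mem_insert_self i S)).mul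
      (ih fun j hj => h j (Finset.mem_insert_of_mem hj))

/-- The lines `x = const` given by `h(x) = 0` and the curves
`(r(x) y - s(x)) ^ k h₂(x) = t h₁(x)`, `t` constant, are invariant under a common vector field
`a(x) ∂/∂x + (b(x) y + c(x)) ∂/∂y`. -/
theorem exists_field (h r s h₁ h₂ : Polynomial ℂ) (k : ℕ) (hh : h ≠ 0) (hr : r ≠ 0) (hh₁ : h₁ ≠ 0)
    (hh₂ : h₂ ≠ 0) (hk : k ≠ 0) (T : Finset ℂ) :
    ∃ a b c : Polynomial ℂ, (a ≠ 0 ∨ b ≠ 0 ∨ c ≠ 0) ∧
      Invariant a b c (inX h * ∏ t ∈ T, (graph r s ^ k * inX h₂ - C t * inX h₁)) := by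
  have hX0 : pderiv (0 : Fin 2) (X 1 : P2) = 0 := pderiv_X_of_ne (by decide)
  have hX1 : pderiv (1 : Fin 2) (X 1 : P2) = 1 := pderiv_X_self 1
  have hm : ∀ p q : Polynomial ℂ, inX (p * q) = inX p * inX q := fun p q => by
    unfold inX; rw [map_mul]
  have hs : ∀ p q : Polynomial ℂ, inX (p - q) = inX p - inX q := fun p q => by
    unfold inX; rw [map_sub]
  have hn : ∀ p : Polynomial ℂ, inX (-p) = -inX p := fun p => by
    unfold inX; rw [map_neg]
  have hkk : ∀ p : Polynomial ℂ, inX ((k : Polynomial ℂ) * p) = (k : P2) * inX p := fun p => by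
    unfold inX; rw [map_mul, map_natCast]
  have hk0 : (k : Polynomial ℂ) ≠ 0 := by exact_mod_cast hk
  -- the vector field is `h` times `a₀ ∂/∂x + (b₀ y + c₀) ∂/∂y`
  obtain ⟨lam, hlam⟩ : ∃ lam, lam = -(r * (Polynomial.derivative h₂ * h₁ -
    Polynomial.derivative h₁ * h₂)) := ⟨_, rfl⟩
  refine ⟨(k : Polynomial ℂ) * (h * h₁ * h₂ * r),
    h * lam - (k : Polynomial ℂ) * (h * h₁ * h₂ * Polynomial.derivative r),
    (k : Polynomial ℂ) * (h * h₁ * h₂ * Polynomial.derivative s) +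
      h * ((Polynomial.derivative h₂ * h₁ - Polynomial.derivative h₁ * h₂) * s),
    Or.inl (mul_ne_zero hk0 (mul_ne_zero (mul_ne_zero (mul_ne_zero hh hh₁) hh₂) hr)), ?_⟩
  have hadd : ∀ p q : Polynomial ℂ, inX (p + q) = inX p + inX q := fun p q => by
    unfold inX; rw [map_add]
  refine Invariant.mul ?_ (Invariant.prod T _ fun t _ => ?_)
  · unfold Invariant
    rw [pderiv_inX_zero, pderiv_inX_one, mul_zero, add_zero, hkk]
    refine ⟨(k : P2) * inX (h₁ * h₂ * r) * inX (Polynomial.derivative h), ?_⟩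
    simp only [hm]
    ring
  · -- the derivative of `r y - s`
    have hg0 : pderiv (0 : Fin 2) (graph r s) = inX (Polynomial.derivative r) * X 1 -
        inX (Polynomial.derivative s) := by
      unfold graph
      simp only [map_sub, Derivation.leibniz, pderiv_inX_zero, smul_eq_mul, hX0, mul_zero,
        zero_add]
      ring
    have hg1 : pderiv (1 : Fin 2) (graph r s) = inX r := by
      unfold graph
      simp only [map_sub, Derivation.leibniz, pderiv_inX_one, smul_eq_mul, hX1, mul_zero,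
        add_zero, sub_zero, mul_one]
    have hgd : graph r s = inX r * X 1 - inX s := rfl
    obtain ⟨j, rfl⟩ : ∃ j, k = j + 1 := ⟨k - 1, by omega⟩
    unfold Invariant
    refine ⟨((j + 1 : ℕ) : P2) * inX (h * r * h₂ * Polynomial.derivative h₁), ?_⟩
    simp only [map_sub, Derivation.leibniz, Derivation.leibniz_pow, pderiv_inX_one,
      pderiv_inX_zero, pderiv_C, smul_eq_mul, hg0, hg1, mul_zero, add_zero, sub_zero, zero_add,
      nsmul_eq_mul, Nat.add_sub_cancel, hkk, hm, hs, hadd, hlam, hn]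
    rw [pow_succ, hgd]
    ring

/-- A polynomial of degree at most two in `y` divides a product of a polynomial in `x` and of one
polynomial `(r(x) y - s(x)) ^ k - t h₁(x)`. -/
theorem degree_two (q₀ q₁ q₂ : Polynomial ℂ) (hq : q₀ ≠ 0 ∨ q₁ ≠ 0 ∨ q₂ ≠ 0) :
    ∃ (h r s h₁ h₂ : Polynomial ℂ) (k : ℕ) (T : Finset ℂ), h ≠ 0 ∧ r ≠ 0 ∧ h₁ ≠ 0 ∧
      h₂ ≠ 0 ∧ k ≠ 0 ∧ (inX q₂ * X 1 ^ 2 + inX q₁ * X 1 + inX q₀) ∣
        inX h * ∏ t ∈ T, (graph r s ^ k * inX h₂ - C t * inX h₁) := by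
  have h1 : inX 1 = 1 := by unfold inX; rw [map_one]
  have h0 : inX 0 = 0 := by unfold inX; rw [map_zero]
  have hm : ∀ p q : Polynomial ℂ, inX (p * q) = inX p * inX q := fun p q => by
    unfold inX; rw [map_mul]
  have hs : ∀ p q : Polynomial ℂ, inX (p - q) = inX p - inX q := fun p q => by
    unfold inX; rw [map_sub]
  have hn : ∀ p : Polynomial ℂ, inX (-p) = -inX p := fun p => by
    unfold inX; rw [map_neg]
  have hc : ∀ (n : ℕ), inX (n : Polynomial ℂ) = (n : P2) := fun n => by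
    unfold inX; rw [map_natCast]
  by_cases h2 : q₂ = 0
  · subst h2
    by_cases h3 : q₁ = 0
    · subst h3
      have hq0 : q₀ ≠ 0 := by tauto
      refine ⟨q₀, 1, 0, 1, 1, 1, ∅, hq0, one_ne_zero, one_ne_zero, one_ne_zero, one_ne_zero, ?_⟩
      rw [h0, Finset.prod_empty, zero_mul, zero_mul, zero_add, zero_add, mul_one]
    · refine ⟨1, q₁, -q₀, 1, 1, 1, {0}, one_ne_zero, h3, one_ne_zero, one_ne_zero, one_ne_zero, ?_⟩
      rw [Finset.prod_singleton, map_zero, h1, graph, h0, hn]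
      exact dvd_of_eq (by ring)
  · have hr : (2 : ℕ) * q₂ ≠ 0 := by
      rw [ne_eq, mul_eq_zero, not_or]
      exact ⟨by norm_num, h2⟩
    by_cases h3 : q₁ ^ 2 - (4 : ℕ) * q₀ * q₂ = 0
    · refine ⟨1, (2 : ℕ) * q₂, -q₁, 1, 1, 2, {0}, one_ne_zero, hr, one_ne_zero, one_ne_zero,
        two_ne_zero, ⟨(4 : ℕ) * inX q₂, ?_⟩⟩
      rw [Finset.prod_singleton, map_zero, h1, graph, hn, hm, hc]
      have h4 : inX q₁ * inX q₁ - 4 * inX q₀ * inX q₂ = 0 := by
        have h5 := congrArg inX h3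
        rw [sq, hs, hm, hm, hm, hc, h0] at h5
        exact_mod_cast h5
      push_cast
      linear_combination (1 : P2) * h4
    · refine ⟨1, (2 : ℕ) * q₂, -q₁, q₁ ^ 2 - (4 : ℕ) * q₀ * q₂, 1, 2, {1}, one_ne_zero, hr, h3,
        one_ne_zero, two_ne_zero, ⟨(4 : ℕ) * inX q₂, ?_⟩⟩
      rw [Finset.prod_singleton, map_one, h1, graph, hn, hm, hc, sq q₁, hs, hm, hm, hm, hc]
      push_cast
      ring

/-- Let `a, b ≥ 2` be coprime, let `a` divide `m, n > 0` and let `F, G` be complex polynomials whose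
Newton polygons are the trapezoids `T_{m,n}` and `T_{bm/a,bn/a}` and whose bracket is constant. Let
`q ≠ 0` be a polynomial such that `x` and `y` become integral over `ℂ[F, G]` after multiplication
with a power of `q(F, G)` (the map `(F, G)` is finite over the complement of the curve `q = 0`), and
let `Ψ` be an automorphism of the polynomial ring (a change of coordinates). If the polynomial `Ψ(q)`
divides a power of a polynomial `D ≠ 0` such that `D = 0` is invariant under a vector field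
`a'(x) ∂/∂x + (b'(x) y + c'(x)) ∂/∂y ≠ 0`, or divides a power of a product of a polynomial
`h(x) ≠ 0` and of any number of polynomials `(r(x) y - s(x)) ^ k h₂(x) - t h₁(x)`, `t` constant, with
the same `k ≥ 1` and `r, s, h₁, h₂`, `r h₁ h₂ ≠ 0`, or divides a power of a polynomial
`q₂(x) y² + q₁(x) y + q₀(x) ≠ 0`, then `[F, G] = 0`. -/
theorem result (a b m n : ℕ) (hm : 0 < m) (hn : 0 < n) (ham : a ∣ m) (han : a ∣ n)
    (hab : Nat.gcd a b = 1) (ha : 2 ≤ a) (hb : 2 ≤ b)
    (F G : MvPolynomial (Fin 2) ℂ)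
    (h1 : convexHull ℝ (insert ((0:ℝ), (0:ℝ))
        ((fun d : Fin 2 →₀ ℕ => ((d 0 : ℝ), (d 1 : ℝ))) '' (↑F.support : Set (Fin 2 →₀ ℕ))))
        = {p : ℝ × ℝ | 0 ≤ p.2 ∧ p.2 ≤ (n : ℝ) ∧ 0 ≤ p.1 ∧ p.1 ≤ (m : ℝ) + (n : ℝ) - p.2})
    (h4 : convexHull ℝ (insert ((0:ℝ), (0:ℝ))
        ((fun d : Fin 2 →₀ ℕ => ((d 0 : ℝ), (d 1 : ℝ))) '' (↑G.support : Set (Fin 2 →₀ ℕ))))
        = {p : ℝ × ℝ | 0 ≤ p.2 ∧ p.2 ≤ ((b * n / a : ℕ) : ℝ) ∧ 0 ≤ p.1 ∧
            p.1 ≤ ((b * m / a : ℕ) : ℝ) + ((b * n / a : ℕ) : ℝ) - p.2})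
    (h5 : ∃ c : ℂ, pderiv 0 F * pderiv 1 G - pderiv 1 F * pderiv 0 G = C c)
    (q : P2)
    (hint : ∀ i : Fin 2, ∃ N : ℕ,
      IsIntegral (Algebra.adjoin ℂ {F, G}) ((aeval ![F, G] q) ^ N * X i))
    (Ψ : P2 ≃ₐ[ℂ] P2)
    (hq : (∃ (a' b' c' : Polynomial ℂ) (D : P2) (N : ℕ), (a' ≠ 0 ∨ b' ≠ 0 ∨ c' ≠ 0) ∧ D ≠ 0 ∧
        Invariant a' b' c' D ∧ Ψ q ∣ D ^ N) ∨
      (∃ (h r s h₁ h₂ : Polynomial ℂ) (k N : ℕ) (T : Finset ℂ), h ≠ 0 ∧ r ≠ 0 ∧ h₁ ≠ 0 ∧
        h₂ ≠ 0 ∧ k ≠ 0 ∧
        Ψ q ∣ (inX h * ∏ t ∈ T, (graph r s ^ k * inX h₂ - C t * inX h₁)) ^ N) ∨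
      (∃ (q₀ q₁ q₂ : Polynomial ℂ) (N : ℕ), (q₀ ≠ 0 ∨ q₁ ≠ 0 ∨ q₂ ≠ 0) ∧
        Ψ q ∣ (inX q₂ * X 1 ^ 2 + inX q₁ * X 1 + inX q₀) ^ N)) :
    pderiv 0 F * pderiv 1 G - pderiv 1 F * pderiv 0 G = 0 := by
  obtain ⟨c, hc⟩ := h5
  by_cases hc0 : c = 0
  · rw [hc, hc0, map_zero]
  exfalso
  have hng := Pool.Agent.R470.Keller.tz_not_good a b m n hm hn ham han hab ha hb F G h1 h4 hc0 hc
  have hJ : IsUnit (Pool.Agent.H922R2.jac ![F, G]).det :=
    Pool.Agent.R470.Keller.det_unit ![F, G] hc0 (by simpa using hc)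
  have hr : Set.range ![F, G] = {F, G} := by
    rw [Matrix.range_cons, Matrix.range_cons, Matrix.range_empty, Set.union_empty]
    rfl
  -- the third case is a special case of the second one
  have hq2 : (∃ (a' b' c' : Polynomial ℂ) (D : P2) (N : ℕ), (a' ≠ 0 ∨ b' ≠ 0 ∨ c' ≠ 0) ∧ D ≠ 0 ∧
        Invariant a' b' c' D ∧ Ψ q ∣ D ^ N) ∨
      (∃ (h r s h₁ h₂ : Polynomial ℂ) (k N : ℕ) (T : Finset ℂ), h ≠ 0 ∧ r ≠ 0 ∧ h₁ ≠ 0 ∧
        h₂ ≠ 0 ∧ k ≠ 0 ∧
        Ψ q ∣ (inX h * ∏ t ∈ T, (graph r s ^ k * inX h₂ - C t * inX h₁)) ^ N) := by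
    rcases hq with hq | hq | ⟨q₀, q₁, q₂, N, h0, hdvd⟩
    · exact Or.inl hq
    · exact Or.inr hq
    · obtain ⟨h, r, s, h₁, h₂, k, T, e1, e2, e3, e4, e5, e6⟩ := degree_two q₀ q₁ q₂ h0
      exact Or.inr ⟨h, r, s, h₁, h₂, k, N, T, e1, e2, e3, e4, e5,
        hdvd.trans (pow_dvd_pow_of_dvd e6 N)⟩
  -- the second case is a special case of the first one
  have hq' : ∃ (a' b' c' : Polynomial ℂ) (D : P2) (N : ℕ), (a' ≠ 0 ∨ b' ≠ 0 ∨ c' ≠ 0) ∧ D ≠ 0 ∧
      Invariant a' b' c' D ∧ Ψ q ∣ D ^ N := by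
    rcases hq2 with hq | ⟨h, r, s, h₁, h₂, k, N, T, hh, hr, hh₁, hh₂, hk, hdvd⟩
    · exact hq
    · obtain ⟨a', b', c', habc, hinv⟩ := exists_field h r s h₁ h₂ k hh hr hh₁ hh₂ hk T
      exact ⟨a', b', c', _, N, habc,
        mul_ne_zero (inX_ne_zero hh) (Finset.prod_ne_zero_iff.2 fun t _ =>
          curve_ne_zero r s h₁ h₂ k t hr hh₂ hk), hinv, hdvd⟩
  obtain ⟨a', b', c', D, N, habc, hD, hinv, hdvd⟩ := hq'
  have hI : ∀ p : P2, IsIntegral (Algebra.adjoin ℂ (Set.range ![F, G])) (aeval ![F, G] p) := by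
    intro p
    have h1 : aeval ![F, G] p ∈ Algebra.adjoin ℂ (Set.range ![F, G]) := by
      rw [Algebra.adjoin_range_eq_range_aeval]
      exact ⟨p, rfl⟩
    exact isIntegral_algebraMap (x := (⟨_, h1⟩ : Algebra.adjoin ℂ (Set.range ![F, G])))
  -- `q` divides a power of `Ψ⁻¹ D`
  obtain ⟨u, hu⟩ : q ∣ (Ψ.symm D) ^ N := by
    have := map_dvd Ψ.symm hdvd
    rwa [AlgEquiv.symm_apply_apply, map_pow] at this
  -- all polynomials become integral after multiplication with a power of `(Ψ⁻¹ D)(F, G)`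
  have hall : ∀ p : P2, ∃ M : ℕ, IsIntegral (Algebra.adjoin ℂ (Set.range ![F, G]))
      ((aeval ![F, G] (Ψ.symm D)) ^ M * p) := by
    intro p
    induction p using MvPolynomial.induction_on with
    | C c =>
      refine ⟨0, ?_⟩
      rw [pow_zero, one_mul]
      have := hI (C c)
      rwa [aeval_C] at this
    | add p p' hp hp' =>
      obtain ⟨M, hM⟩ := hp
      obtain ⟨M', hM'⟩ := hp'
      refine ⟨M + M', ?_⟩
      have e : aeval ![F, G] (Ψ.symm D) ^ (M + M') * (p + p') =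
          aeval ![F, G] (Ψ.symm D) ^ M' * (aeval ![F, G] (Ψ.symm D) ^ M * p) +
          aeval ![F, G] (Ψ.symm D) ^ M * (aeval ![F, G] (Ψ.symm D) ^ M' * p') := by ring
      rw [e]
      exact (((hI _).pow M').mul hM).add (((hI _).pow M).mul hM')
    | mul_X p i hp =>
      obtain ⟨M, hM⟩ := hp
      obtain ⟨M', hM'⟩ := hint i
      rw [← hr] at hM'
      refine ⟨M + N * M', ?_⟩
      have e : aeval ![F, G] (Ψ.symm D) ^ (M + N * M') * (p * X i) =
          (aeval ![F, G] (Ψ.symm D) ^ M * p) *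
            ((aeval ![F, G] u) ^ M' * ((aeval ![F, G] q) ^ M' * X i)) := by
        have e1 : aeval ![F, G] (Ψ.symm D) ^ N = aeval ![F, G] q * aeval ![F, G] u := by
          rw [← map_pow, hu, map_mul]
        rw [pow_add, pow_mul, e1]
        ring
      rw [e]
      exact hM.mul (((hI _).pow M').mul hM')
  have htop : Pool.Agent.H922R2.SS ![F, G] = ⊤ := by
    apply Pool.Agent.H928R2.Tri.top_of_field ![F, G] hJ
    intro z
    refine Pool.Agent.H928R2.Tri.main_M_aut ![F, G] hJ ⊤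
      (fun _ => IntermediateField.mem_top) (Ψ.symm D)
      ((map_ne_zero_iff _ Ψ.symm.injective).2 hD) (fun b _ _ j => hall _) Ψ a' b' c' habc ?_ z
      IntermediateField.mem_top
    rw [AlgEquiv.apply_symm_apply]
    exact hinv
  apply hng
  apply Pool.Agent.R470.Keller.good_of_inv
  have h6 : ∀ i : Fin 2, ∃ p : P2, aeval ![F, G] p = X i := by
    intro i
    have h7 : (X i : P2) ∈ Pool.Agent.H922R2.SS ![F, G] := by rw [htop]; trivial
    exact h7
  choose G' hG' using h6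
  exact ⟨G', hG'⟩

end Pool.Agent.Results.MP_2d59ee_ag.TriangularBranchCurves
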